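import Pool.Agent.helper51.QW.Spec
import Pool.Agent.helper74.TG.SW

/-! # Project QW (MP_ad8ced_nt), row qw:QWS: the Siegel-Walfisz theorem for the moduli `M p²` -/

set_option autoImplicit false

namespace Pool.Agent.PT

open Finset Pool.Agent.helper71.AA

theorem QWS_of
    (sw : ∀ A B : ℕ, ∃ C x₀ : ℝ, 0 < C ∧ ∀ x : ℝ, x₀ ≤ x → ∀ q : ℕ, 0 < q →
      (q : ℝ) ≤ Real.log x ^ B → ∀ b : ℕ, Nat.Coprime b q → ∀ u : ℕ, (u : ℝ) ≤ x →
      |∑ n ∈ Ioc 0 u with n ≡ b [MOD q], ArithmeticFunction.vonMangoldt n - u / (Nat.totient q : ℝ)|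
        ≤ C * x / Real.log x ^ A) : QWS_stmt := by
  intro M b B hM hb eps heps
  obtain ⟨C, x₀, hC, h⟩ := sw (2 * B + 2) (2 * B + 1)
  have htM : 0 < (Nat.totient M : ℝ) := by exact_mod_cast Nat.totient_pos.2 hM
  -- choice of `N₀`
  have hlog : ∀ᶠ N : ℕ in Filter.atTop,
      max (M : ℝ) (max 1 (C * Nat.totient M / eps)) ≤ Real.log N :=
    (Real.tendsto_log_atTop.comp tendsto_natCast_atTop_atTop).eventually_ge_atTop _
  have hx : ∀ᶠ N : ℕ in Filter.atTop, x₀ ≤ (N : ℝ) :=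
    tendsto_natCast_atTop_atTop.eventually_ge_atTop _
  obtain ⟨N₀, hN₀⟩ := Filter.eventually_atTop.1 (hlog.and hx)
  refine ⟨N₀, ?_⟩
  intro N hN p hp hpM hpl
  obtain ⟨hl, hx0⟩ := hN₀ N hN
  have hl1 : (M : ℝ) ≤ Real.log N := (le_max_left _ _).trans hl
  have hl2 : (1 : ℝ) ≤ Real.log N := (le_max_left _ _).trans ((le_max_right _ _).trans hl)
  have hl3 : C * Nat.totient M ≤ eps * Real.log N := by
    have h1 : C * Nat.totient M / eps ≤ Real.log N :=
      (le_max_right _ _).trans ((le_max_right _ _).trans hl)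
    rw [div_le_iff₀ heps] at h1
    linarith
  have hl0 : 0 < Real.log N := by linarith
  have hpp : 0 < p := hp.pos
  have hp2 : 0 < p ^ 2 := by positivity
  have hcop : Nat.Coprime M (p ^ 2) :=
    Nat.Coprime.pow_right 2 ((Nat.Prime.coprime_iff_not_dvd hp).2 hpM).symm
  obtain ⟨k, hk1, hk2⟩ := Nat.chineseRemainder hcop b (p ^ 2 - 1)
  have hp24 : (p : ℝ) ^ 2 ≤ Real.log N ^ (2 * B) := by
    calc (p : ℝ) ^ 2 ≤ (Real.log N ^ B) ^ 2 := by gcongr
      _ = Real.log N ^ (2 * B) := by rw [← pow_mul, mul_comm]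
  have hq : ((M * p ^ 2 : ℕ) : ℝ) ≤ Real.log N ^ (2 * B + 1) := by
    push_cast
    calc (M : ℝ) * (p : ℝ) ^ 2 ≤ Real.log N * Real.log N ^ (2 * B) := by gcongr
      _ = Real.log N ^ (2 * B + 1) := by ring
  have hkc : Nat.Coprime k (M * p ^ 2) := by
    rw [Nat.coprime_mul_iff_right]
    constructor
    · have : Nat.gcd k M = Nat.gcd b M := hk1.gcd_eq
      rw [Nat.Coprime, this]
      exact hb
    · have h1 : Nat.gcd k (p ^ 2) = Nat.gcd (p ^ 2 - 1) (p ^ 2) := hk2.gcd_eq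
      rw [Nat.Coprime, h1]
      have h2 : Nat.Coprime (p ^ 2 - 1) (p ^ 2 - 1 + 1) := by simp
      rwa [Nat.sub_add_cancel hp2] at h2
  have hmain := h N hx0 (M * p ^ 2) (Nat.mul_pos hM hp2) hq k hkc N le_rfl
  have hset : ∑ n ∈ Ioc 0 N with n ≡ k [MOD M * p ^ 2], ArithmeticFunction.vonMangoldt n =
      ∑ n ∈ Ioc 0 N with n ≡ b [MOD M] ∧ n ≡ p ^ 2 - 1 [MOD p ^ 2],
        ArithmeticFunction.vonMangoldt n := by
    refine Finset.sum_congr (Finset.filter_congr fun n _ => ?_) fun _ _ => rfl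
    rw [← Nat.modEq_and_modEq_iff_modEq_mul hcop]
    exact ⟨fun h => ⟨h.1.trans hk1, h.2.trans hk2⟩, fun h => ⟨h.1.trans hk1.symm, h.2.trans hk2.symm⟩⟩
  rw [hset, Nat.totient_mul hcop] at hmain
  have htp : (Nat.totient (p ^ 2) : ℝ) ≤ (p : ℝ) ^ 2 := by
    exact_mod_cast Nat.totient_le (p ^ 2)
  have htp0 : 0 < (Nat.totient (p ^ 2) : ℝ) := by exact_mod_cast Nat.totient_pos.2 hp2
  have hpR : (0 : ℝ) < (p : ℝ) := by exact_mod_cast hpp
  push_cast at hmain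
  have h1 := (abs_le.1 hmain).1
  have hN0 : (0 : ℝ) ≤ N := Nat.cast_nonneg _
  have h2 : (N : ℝ) / (Nat.totient M * (p : ℝ) ^ 2) ≤
      (N : ℝ) / (Nat.totient M * Nat.totient (p ^ 2)) := by
    apply div_le_div_of_nonneg_left hN0 (by positivity)
    gcongr
  have h3 : C * N / Real.log N ^ (2 * B + 2) ≤
      eps * ((N : ℝ) / ((Nat.totient M : ℝ) * (p : ℝ) ^ 2)) := by
    rw [← mul_div_assoc, div_le_div_iff₀ (by positivity) (by positivity)]
    calc C * N * ((Nat.totient M : ℝ) * (p : ℝ) ^ 2)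
        = N * ((C * Nat.totient M) * (p : ℝ) ^ 2) := by ring
      _ ≤ N * ((eps * Real.log N) * Real.log N ^ (2 * B)) := by gcongr
      _ ≤ N * ((eps * Real.log N) * Real.log N ^ (2 * B) * Real.log N) := by
          apply mul_le_mul_of_nonneg_left _ hN0
          exact le_mul_of_one_le_right (by positivity) hl2
      _ = eps * N * Real.log N ^ (2 * B + 2) := by ring
  have h5 : (1 - eps) * ((N : ℝ) / ((Nat.totient M : ℝ) * (p : ℝ) ^ 2)) =
      (N : ℝ) / (Nat.totient M * (p : ℝ) ^ 2) -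
        eps * ((N : ℝ) / ((Nat.totient M : ℝ) * (p : ℝ) ^ 2)) := by
    ring
  rw [h5]
  linarith

theorem QWS : QWS_stmt := QWS_of Pool.Agent.helper74.TG.siegel_walfisz

end Pool.Agent.PT
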